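import Pool.Agent.N929.EG.Lst

/-!
EG/WIN: the system of moves of a local rule (adapted from TH966.AK.Win).
-/

set_option autoImplicit false
set_option linter.unusedVariables false

namespace Pool.Agent.N169.EG

open Finset Filter Topology
open Pool.Agent.N929.EG
open scoped Classical

variable {Ver : Type}

/-! ### finite sets -/

/-- lists of length `m` with elements in `F` -/
noncomputable def lists (F : Finset Ver) : ℕ → Finset (List Ver)
  | 0 => {[]}
  | m + 1 => (F ×ˢ lists F m).image (fun q => q.1 :: q.2)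

theorem mem_lists {F : Finset Ver} {m : ℕ} {l : List Ver} :
    l ∈ lists F m ↔ l.length = m ∧ ∀ x ∈ l, x ∈ F := by
  induction m generalizing l with
  | zero =>
    simp only [lists, Finset.mem_singleton, List.length_eq_zero_iff]
    constructor
    · rintro rfl; simp
    · rintro ⟨h, -⟩; exact h
  | succ m ih =>
    simp only [lists, Finset.mem_image, Finset.mem_product]
    constructor
    · rintro ⟨⟨a, b⟩, ⟨h1, h2⟩, rfl⟩
      have h3 := ih.1 h2
      refine ⟨by simp [h3.1], ?_⟩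
      intro x hx
      rw [List.mem_cons] at hx
      rcases hx with rfl | hx
      · exact h1
      · exact h3.2 x hx
    · rintro ⟨h1, h2⟩
      obtain ⟨a, b, rfl⟩ := List.exists_cons_of_length_eq_add_one h1
      exact ⟨(a, b), ⟨h2 a (by simp), ih.2 ⟨by simpa using h1, fun x hx => h2 x (by simp [hx])⟩⟩,
        rfl⟩

theorem card_lists (F : Finset Ver) (m : ℕ) : (lists F m).card ≤ F.card ^ m := by
  induction m with
  | zero => simp [lists]
  | succ m ih =>
    refine Finset.card_image_le.trans ?_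
    rw [Finset.card_product, pow_succ, mul_comm]
    exact Nat.mul_le_mul_right _ ih

section rul

variable {X : Geo Ver} {A : Ver → Ver → Prop} (Z : Rul X A)

/-- the walks with `n` steps -/
noncomputable def Kw (X : Geo Ver) (A : Ver → Ver → Prop) (n : ℕ) : Finset (List Ver) :=
  (lists (X.bx X.o n) (n + 1)).filter (Walk X.o A)

/-- candidates for windows with first point `p` -/
noncomputable def cand (p : Ver) : Finset (List Ver × List Ver) :=
  lists (X.bx p Z.ρ) Z.k ×ˢ lists (X.bx p Z.ρ) (Z.k + Z.s)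

/-- bound for their number -/
def c0 : ℕ := X.g Z.ρ ^ Z.k * X.g Z.ρ ^ (Z.k + Z.s)

theorem card_cand (p : Ver) : (cand Z p).card ≤ c0 Z := by
  unfold cand c0
  rw [Finset.card_product]
  exact Nat.mul_le_mul ((card_lists _ _).trans (Nat.pow_le_pow_left (X.card_bx _ _) _))
    ((card_lists _ _).trans (Nat.pow_le_pow_left (X.card_bx _ _) _))

theorem mem_cand {U U' : List Ver} (h : Z.T U U') {p : Ver} (hp : p ∈ U ++ U') :
    (U, U') ∈ cand Z p := by
  unfold cand
  rw [Finset.mem_product, mem_lists, mem_lists]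
  obtain ⟨h1, h2⟩ := Z.len U U' h
  refine ⟨⟨h1, fun x hx => ?_⟩, ⟨h2, fun x hx => ?_⟩⟩
  · exact Z.loc U U' h p hp x (List.mem_append_left _ hx)
  · exact Z.loc U U' h p hp x (List.mem_append_right _ hx)

include Z in
theorem chain_box : ∀ (l : List Ver) (x : Ver) (m : ℕ), (x :: l).IsChain A →
    (x :: l).length ≤ m + 1 → ∀ y ∈ x :: l, y ∈ X.bx x m := by
  intro l
  induction l with
  | nil =>
    intro x m _ _ y hy
    simp only [List.mem_singleton] at hy
    subst hy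
    exact X.self _ _
  | cons z l ih =>
    intro x m hc hl y hy
    rw [List.isChain_cons_cons] at hc
    rw [List.mem_cons] at hy
    rcases hy with rfl | hy
    · exact X.self _ _
    · obtain ⟨m', rfl⟩ : ∃ m', m = m' + 1 := by
        simp only [List.length_cons] at hl
        exact ⟨m - 1, by omega⟩
      have h1 := ih z m' hc.2 (by simp only [List.length_cons] at hl ⊢; omega) y hy
      have h2 := Z.step x z hc.1
      rw [Nat.add_comm]
      exact X.tri x z y 1 m' h2 h1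

include Z in
theorem walk_box {n : ℕ} {w : List Ver} (h1 : w.length = n + 1) (h2 : Walk X.o A w) :
    ∀ x ∈ w, x ∈ X.bx X.o n := by
  obtain ⟨h3, h4, h5⟩ := h2
  obtain ⟨a, b, rfl⟩ := List.exists_cons_of_length_eq_add_one h1
  simp only [List.head?_cons, Option.some.injEq] at h3
  subst h3
  intro x hx
  exact chain_box Z b _ n h5 h1.le x hx

include Z in
theorem mem_K {n : ℕ} {w : List Ver} : w ∈ Kw X A n ↔ w.length = n + 1 ∧ Walk X.o A w := by
  unfold Kw
  rw [Finset.mem_filter, mem_lists]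
  constructor
  · rintro ⟨⟨h1, -⟩, h2⟩
    exact ⟨h1, h2⟩
  · rintro ⟨h1, h2⟩
    exact ⟨⟨h1, walk_box Z h1 h2⟩, h2⟩

/-- upward moves -/
noncomputable def S (w : List Ver) : Finset (List Ver × List Ver) :=
  (w.toFinset.biUnion (cand Z)).filter (fun q => Z.T q.1 q.2 ∧ Free q.1 q.2 w)

/-- downward moves -/
noncomputable def B (w : List Ver) : Finset (List Ver × List Ver) :=
  (w.toFinset.biUnion (cand Z)).filter (fun q => Z.T q.1 q.2 ∧ Free q.2 q.1 w)

theorem mem_S {w : List Ver} {q : List Ver × List Ver} :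
    q ∈ S Z w ↔ Z.T q.1 q.2 ∧ Free q.1 q.2 w := by
  unfold S
  rw [Finset.mem_filter]
  constructor
  · exact fun h => h.2
  · rintro ⟨h1, h2⟩
    refine ⟨?_, h1, h2⟩
    obtain ⟨p, U0, h3⟩ := List.exists_cons_of_ne_nil (ne_nil (Z.pair _ _ h1))
    rw [Finset.mem_biUnion]
    refine ⟨p, ?_, mem_cand Z h1 (by rw [h3]; simp)⟩
    rw [List.mem_toFinset]
    exact h2.1.subset (by rw [h3]; simp)

theorem mem_B {w : List Ver} {q : List Ver × List Ver} :
    q ∈ B Z w ↔ Z.T q.1 q.2 ∧ Free q.2 q.1 w := by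
  unfold B
  rw [Finset.mem_filter]
  constructor
  · exact fun h => h.2
  · rintro ⟨h1, h2⟩
    refine ⟨?_, h1, h2⟩
    obtain ⟨p, U0, h3⟩ := List.exists_cons_of_ne_nil (ne_nil (Z.pair _ _ h1).symm)
    rw [Finset.mem_biUnion]
    refine ⟨p, ?_, mem_cand Z h1 (by rw [h3]; simp)⟩
    rw [List.mem_toFinset]
    exact h2.1.subset (by rw [h3]; simp)

/-- the windows near `p` -/
noncomputable def near (p : Ver) : Finset (List Ver × List Ver) := (X.bx p Z.ρ).biUnion (cand Z)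

/-- the constant -/
def CC : ℕ := X.g Z.ρ * c0 Z

theorem card_near (p : Ver) : (near Z p).card ≤ CC Z := by
  have h := Finset.card_biUnion_le_card_mul (X.bx p Z.ρ) (cand Z) (c0 Z) fun x _ => card_cand Z x
  unfold near CC
  exact h.trans (Nat.mul_le_mul_right _ (X.card_bx _ _))

theorem mem_near {U U' V V' : List Ver} (hU : Z.T U U') (hV : Z.T V V') {p x : Ver}
    (hp : p ∈ U ++ U') (hx : x ∈ U ++ U') (hx' : x ∈ V ++ V') : (V, V') ∈ near Z p := by
  unfold near
  rw [Finset.mem_biUnion]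
  exact ⟨x, Z.loc U U' hU p hp x hx, mem_cand Z hV hx'⟩

/-- the places for walks of at most `N` steps -/
noncomputable def UU (N : ℕ) : Finset (List Ver × List Ver) :=
  ((X.bx X.o N).biUnion (cand Z)).filter (fun q => Z.T q.1 q.2)

theorem mem_UU {n N : ℕ} {w : List Ver} {q : List Ver × List Ver} (hw : w ∈ Kw X A n) (hn : n ≤ N)
    (hT : Z.T q.1 q.2) {p : Ver} (hp : p ∈ q.1 ++ q.2) (hpw : p ∈ w) : q ∈ UU Z N := by
  unfold UU
  rw [Finset.mem_filter, Finset.mem_biUnion]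
  rw [mem_K Z] at hw
  exact ⟨⟨p, X.mono _ _ _ hn (walk_box Z hw.1 hw.2 p hpw), mem_cand Z hT hp⟩, hT⟩

/-- conflicts -/
def Cf (q q' : List Ver × List Ver) : Prop := ∃ x, x ∈ q.1 ++ q.2 ∧ x ∈ q'.1 ++ q'.2

theorem two_le {U U' : List Ver} (h : Pair A U U') : 2 ≤ U.length := by
  obtain ⟨⟨p, r, X, X', h1, -⟩, -⟩ := h
  rw [h1]; simp

/-- an infix which avoids a window is on one side -/
theorem side {U V L R : List Ver} (hU : U ≠ []) (hV : V ≠ []) (h : V <:+: L ++ U ++ R)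
    (hd : ∀ x ∈ U, x ∉ V) : V <:+: L ∨ V <:+: R := by
  obtain ⟨p, U0, rfl⟩ := List.exists_cons_of_ne_nil hU
  have e : L ++ (p :: U0) ++ R = L ++ p :: (U0 ++ R) := by simp
  rw [e] at h
  rcases infix_split h (hd p (by simp)) with h1 | h1
  · exact Or.inl h1
  · exact Or.inr (infix_drop hV h1 fun x hx => hd x (by simp [hx]))

/-- two replacements -/
theorem comm_aux {U U' V V' a b c : List Ver} (hU : U ≠ []) (hV : V ≠ [])
    (h0 : (a ++ U ++ b ++ V ++ c).Nodup) (h1 : (a ++ U' ++ b ++ V ++ c).Nodup)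
    (h2 : (a ++ U ++ b ++ V' ++ c).Nodup) :
    rep (rep (a ++ U ++ b ++ V ++ c) U U') V V' = rep (rep (a ++ U ++ b ++ V ++ c) V V') U U' := by
  have e1 : rep (a ++ U ++ b ++ V ++ c) U U' = a ++ U' ++ b ++ V ++ c := by
    have h3 : a ++ U ++ b ++ V ++ c = a ++ U ++ (b ++ V ++ c) := by simp
    have h4 : a ++ U' ++ b ++ V ++ c = a ++ U' ++ (b ++ V ++ c) := by simp
    rw [h3] at h0 ⊢
    rw [h4]
    exact rep_eq hU h0
  have e2 : rep (a ++ U ++ b ++ V ++ c) V V' = a ++ U ++ b ++ V' ++ c := rep_eq hV h0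
  have e3 : rep (a ++ U' ++ b ++ V ++ c) V V' = a ++ U' ++ b ++ V' ++ c := rep_eq hV h1
  have e4 : rep (a ++ U ++ b ++ V' ++ c) U U' = a ++ U' ++ b ++ V' ++ c := by
    have h3 : a ++ U ++ b ++ V' ++ c = a ++ U ++ (b ++ V' ++ c) := by simp
    have h4 : a ++ U' ++ b ++ V' ++ c = a ++ U' ++ (b ++ V' ++ c) := by simp
    rw [h3] at h2 ⊢
    rw [h4]
    exact rep_eq hU h2
  rw [e1, e2, e3, e4]

/-- the two replacements commute -/
theorem comm_rep {o : Ver} {U U' V V' w : List Ver} (hw : Walk o A w) (hU : Pair A U U')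
    (hV : Pair A V V') (fU : Free U U' w) (fV : Free V V' w) (hd : ∀ x ∈ U ++ U', x ∉ V ++ V') :
    rep (rep w U U') V V' = rep (rep w V V') U U' := by
  obtain ⟨L, R, h1, h2, h3, -, -⟩ := rep_all hU hw fU
  obtain ⟨L', R', g1, g2, g3, -, -⟩ := rep_all hV hw fV
  have hd' : ∀ x ∈ U, x ∉ V := fun x hx hc =>
    hd x (List.mem_append_left _ hx) (List.mem_append_left _ hc)
  have hin := fV.1
  rw [h1] at hin
  rcases side (ne_nil hU) (ne_nil hV) hin hd' with h | h
  · obtain ⟨a, b, h⟩ := h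
    have e : w = a ++ V ++ b ++ U ++ R := by rw [h1, h]
    have e2 : rep w V V' = a ++ V' ++ b ++ U ++ R := by
      have e3 : a ++ V ++ b ++ U ++ R = a ++ V ++ (b ++ U ++ R) := by simp
      have e4 : a ++ V' ++ b ++ U ++ R = a ++ V' ++ (b ++ U ++ R) := by simp
      rw [e, e4, e3]
      refine rep_eq (ne_nil hV) ?_
      rw [← e3, ← e]
      exact hw.2.1
    rw [e]
    refine (comm_aux (ne_nil hV) (ne_nil hU) ?_ ?_ ?_).symm
    · rw [← e]; exact hw.2.1
    · rw [← e2, g2]; exact g3.2.1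
    · rw [h]; exact h3.2.1
  · obtain ⟨b, c, h⟩ := h
    have e : w = L ++ U ++ b ++ V ++ c := by rw [h1, ← h]; simp
    have e2 : rep w V V' = L ++ U ++ b ++ V' ++ c := by
      rw [e]
      refine rep_eq (ne_nil hV) ?_
      rw [← e]
      exact hw.2.1
    rw [e]
    refine comm_aux (ne_nil hU) (ne_nil hV) ?_ ?_ ?_
    · rw [← e]; exact hw.2.1
    · have e5 : L ++ U' ++ b ++ V ++ c = L ++ U' ++ R := by rw [← h]; simp
      rw [e5]; exact h3.2.1
    · rw [← e2, g2]; exact g3.2.1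

/-- the system of moves -/
noncomputable def sys : TS (List Ver) (List Ver × List Ver) where
  K := Kw X A
  len w := w.length - 1
  S := S Z
  B := B Z
  ins w q := rep w q.1 q.2
  rem w q := rep w q.2 q.1
  s := Z.s
  cf := Cf
  d := CC Z
  U := UU Z
  hs := Z.hs
  len_K := by
    intro n w hw
    rw [mem_K Z] at hw
    omega
  ins_K := by
    rintro n w ⟨U, U'⟩ hw hq
    rw [mem_K Z] at hw ⊢
    rw [mem_S] at hq
    obtain ⟨L, R, h1, h2, h3, h4, h5⟩ := rep_all (Z.pair _ _ hq.1) hw.2 hq.2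
    have hl := Z.len _ _ hq.1
    simp only at h1 h2 h3 h4 h5 hl ⊢
    rw [h2]
    refine ⟨?_, h3⟩
    have h6 := hw.1
    rw [h1] at h6
    simp only [List.length_append] at h6 ⊢
    omega
  ins_B := by
    rintro n w ⟨U, U'⟩ hw hq
    rw [mem_K Z] at hw
    rw [mem_S] at hq
    obtain ⟨L, R, h1, h2, h3, h4, h5⟩ := rep_all (Z.pair _ _ hq.1) hw.2 hq.2
    rw [mem_B, h2]
    exact ⟨hq.1, h4⟩
  rem_ins := by
    rintro n w ⟨U, U'⟩ hw hq
    rw [mem_K Z] at hw
    rw [mem_S] at hq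
    obtain ⟨L, R, h1, h2, h3, h4, h5⟩ := rep_all (Z.pair _ _ hq.1) hw.2 hq.2
    rw [h2]
    exact h5
  rem_le := by
    rintro n w ⟨U, U'⟩ hw hq
    rw [mem_K Z] at hw
    rw [mem_B] at hq
    have h1 := hq.2.1.length_le
    have h2 := Z.len _ _ hq.1
    have h3 := two_le (Z.pair _ _ hq.1)
    simp only at h1 h2 h3
    omega
  rem_K := by
    rintro n w ⟨U, U'⟩ hw hq
    rw [mem_K Z] at hw ⊢
    rw [mem_B] at hq
    obtain ⟨L, R, h1, h2, h3, h4, h5⟩ := rep_all (Z.pair _ _ hq.1).symm hw.2 hq.2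
    have hl := Z.len _ _ hq.1
    have h7 := two_le (Z.pair _ _ hq.1)
    simp only at h1 h2 h3 h4 h5 hl h7 ⊢
    rw [h2]
    refine ⟨?_, h3⟩
    have h6 := hw.1
    rw [h1] at h6
    simp only [List.length_append] at h6 ⊢
    omega
  rem_S := by
    rintro n w ⟨U, U'⟩ hw hq
    rw [mem_K Z] at hw
    rw [mem_B] at hq
    obtain ⟨L, R, h1, h2, h3, h4, h5⟩ := rep_all (Z.pair _ _ hq.1).symm hw.2 hq.2
    rw [mem_S, h2]
    exact ⟨hq.1, h4⟩
  ins_rem := by
    rintro n w ⟨U, U'⟩ hw hq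
    rw [mem_K Z] at hw
    rw [mem_B] at hq
    obtain ⟨L, R, h1, h2, h3, h4, h5⟩ := rep_all (Z.pair _ _ hq.1).symm hw.2 hq.2
    rw [h2]
    exact h5
  disj := by
    rintro n w ⟨U, U'⟩ hw hq hq'
    rw [mem_S] at hq
    rw [mem_B] at hq'
    obtain ⟨⟨p, r, Y, Y', h1, h2, h3, h4⟩, -⟩ := Z.pair _ _ hq.1
    have hl := Z.len _ _ hq.1
    have hs := Z.hs
    simp only at h1 h2 h3 h4 hl
    have h5 : Y' ≠ [] := by
      rintro rfl
      rw [h1, h2] at hl
      simp only [List.length_cons, List.length_append, List.length_nil, List.nil_append] at hl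
      omega
    obtain ⟨x, Y0, h6⟩ := List.exists_cons_of_ne_nil h5
    have h7 : x ∈ U' := by rw [h2, h6]; simp
    exact hq.2.2 x h7 (h4 x (by rw [h6]; simp)) (hq'.2.1.subset h7)
  cf_symm := by
    rintro q q' ⟨x, h1, h2⟩
    exact ⟨x, h2, h1⟩
  ins_S := by
    rintro n w ⟨U, U'⟩ ⟨V, V'⟩ hw hq hcf
    rw [mem_K Z] at hw
    rw [mem_S] at hq
    obtain ⟨L, R, h1, h2, h3, h4, h5⟩ := rep_all (Z.pair _ _ hq.1) hw.2 hq.2
    simp only at h1 h2
    have hd : ∀ x ∈ U ++ U', x ∉ V ++ V' := fun x hx hc => hcf ⟨x, hx, hc⟩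
    have hd' : ∀ x ∈ U' ++ U, x ∉ V ++ V' := fun x hx hc =>
      hd x (by rw [List.mem_append] at hx ⊢; exact hx.symm) hc
    rw [mem_S, mem_S, h2]
    constructor
    · rintro ⟨g1, g2⟩
      refine ⟨g1, ?_⟩
      rw [h1]
      exact keep (Z.pair _ _ hq.1).symm (ne_nil (Z.pair _ _ g1)) g2 hd'
    · rintro ⟨g1, g2⟩
      refine ⟨g1, ?_⟩
      rw [h1] at g2
      exact keep (Z.pair _ _ hq.1) (ne_nil (Z.pair _ _ g1)) g2 hd
  ins_BB := by
    rintro n w ⟨U, U'⟩ ⟨V, V'⟩ hw hq hcf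
    rw [mem_K Z] at hw
    rw [mem_S] at hq
    obtain ⟨L, R, h1, h2, h3, h4, h5⟩ := rep_all (Z.pair _ _ hq.1) hw.2 hq.2
    simp only at h1 h2
    have hd : ∀ x ∈ U ++ U', x ∉ V' ++ V := fun x hx hc =>
      hcf ⟨x, hx, by rw [List.mem_append] at hc ⊢; exact hc.symm⟩
    have hd' : ∀ x ∈ U' ++ U, x ∉ V' ++ V := fun x hx hc =>
      hd x (by rw [List.mem_append] at hx ⊢; exact hx.symm) hc
    rw [mem_B, mem_B, h2]
    constructor
    · rintro ⟨g1, g2⟩
      refine ⟨g1, ?_⟩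
      rw [h1]
      exact keep (Z.pair _ _ hq.1).symm (ne_nil (Z.pair _ _ g1).symm) g2 hd'
    · rintro ⟨g1, g2⟩
      refine ⟨g1, ?_⟩
      rw [h1] at g2
      exact keep (Z.pair _ _ hq.1) (ne_nil (Z.pair _ _ g1).symm) g2 hd
  ins_comm := by
    rintro n w ⟨U, U'⟩ ⟨V, V'⟩ hw hq hq' hcf
    rw [mem_K Z] at hw
    rw [mem_S] at hq hq'
    exact comm_rep hw.2 (Z.pair _ _ hq.1) (Z.pair _ _ hq'.1) hq.2 hq'.2
      fun x hx hc => hcf ⟨x, hx, hc⟩
  S_U := by
    intro n N w hw hn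
    constructor
    · intro q hq
      rw [mem_S] at hq
      obtain ⟨p, U0, h3⟩ := List.exists_cons_of_ne_nil (ne_nil (Z.pair _ _ hq.1))
      exact mem_UU Z hw hn hq.1 (p := p) (by rw [h3]; simp) (hq.2.1.subset (by rw [h3]; simp))
    · intro q hq
      rw [mem_B] at hq
      obtain ⟨p, U0, h3⟩ := List.exists_cons_of_ne_nil (ne_nil (Z.pair _ _ hq.1).symm)
      exact mem_UU Z hw hn hq.1 (p := p) (by rw [h3]; simp) (hq.2.1.subset (by rw [h3]; simp))
  deg := by
    intro N q hq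
    have hT : Z.T q.1 q.2 := by
      unfold UU at hq
      exact (Finset.mem_filter.1 hq).2
    obtain ⟨p, U0, h3⟩ := List.exists_cons_of_ne_nil (ne_nil (Z.pair _ _ hT))
    refine (Finset.card_le_card ?_).trans (card_near Z p)
    intro q' hq'
    rw [Finset.mem_filter] at hq'
    obtain ⟨h4, x, h5, h6⟩ := hq'
    have hT' : Z.T q'.1 q'.2 := by
      unfold UU at h4
      exact (Finset.mem_filter.1 h4).2
    exact mem_near Z hT hT' (p := p) (x := x) (by rw [h3]; simp) h5 h6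

end rul

theorem win : S_WIN := by
  intro Ver X A Z
  exact ⟨sys Z, rfl, fun _ => rfl, fun n w => mem_K Z, fun w q => mem_S Z, fun w q => mem_B Z,
    fun _ _ => rfl⟩

end Pool.Agent.N169.EG
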